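import Mathlib
import Pool.Agent.H.MP_430a41_an.B

open Set Filter Topology

namespace Pool.Agent.Results.MP_430a41_an.NoSpan

open H.MP_430a41_an

theorem result : ∃ H : (Fin 5 → ℝ) → Submodule ℂ (Fin 5 → ℂ), IsCR 1 H ∧
    O H 0 = {q | q 4 = 0} ∧ ∀ q ∈ O H 0, ∀ X ∈ hol H q, X q 3 = 0 := by
  obtain ⟨cc, c0, hc⟩ := exg
  have p : ∀ n : ℕ, (0 : ℝ) < (1 / 2) ^ n := fun n => by positivity
  have ty : Tendsto (fun n : ℕ => (1 / 2 : ℝ) ^ n) atTop (𝓝 0) :=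
    tendsto_pow_atTop_nhds_zero_of_lt_one (by norm_num) (by norm_num)
  set ε : ℕ → ℝ := fun n => min (cc n ((1 / 2) ^ n)) ((1 / 2) ^ n)
  have e0 : ∀ n, 0 < ε n := fun n => lt_min (c0 _ _ (p n)) (p n)
  obtain ⟨g, dg, zs, hT, sh⟩ := hc _ ε p (fun n => by rw [pow_succ]; linarith) ty e0
  have fl : ∀ a n, |⌊a / ε n⌋ * ε n - a| ≤ ε n := fun a n => by
    have a := Int.floor_le (a / ε n)
    have b := Int.lt_floor_add_one (‹ℝ› / ε n)
    rw [le_div_iff₀ (e0 n)] at a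
    rw [div_lt_iff₀ (e0 n)] at b
    rw [abs_le]; constructor <;> linarith [e0 n]
  have hO : O (HH g) 0 = {q | q 4 = 0} := by
    refine subset_antisymm (fun _ ⟨h, c, hp, e⟩ => e ▸ axis dg hT c hp rfl) fun q hq => ?_
    have := sh (q 3) (fun n => ⌊q 3 / ε n⌋) (fun n => (fl _ n).trans (min_le_left _ _))
      (q 0) (q 1) (q 2)
    rwa [show ![q 0, q 1, q 2, q 3, 0] = q by ext i; fin_cases i <;> first | rfl | exact hq.symm]
      at this
  refine ⟨HH g, isCR dg, hO, fun q hq X ⟨U, W, hU, hW, qW, dX, δ, hδ, φ, φ0, hφ⟩ => ?_⟩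
  rw [hO] at hq
  have m : (0 : ℝ) ∈ Ioo (-δ) δ := ⟨by linarith, hδ⟩
  set x : ℕ → E := fun n => ![q 0, q 1, q 2, ⌊q 3 / ε n⌋ * ε n, (1 / 2) ^ n] with hx
  have tx : Tendsto x atTop (𝓝 q) := tendsto_pi_nhds.2 fun i => by
    fin_cases i
    · exact tendsto_const_nhds
    · exact tendsto_const_nhds
    · exact tendsto_const_nhds
    · exact tendsto_iff_dist_tendsto_zero.2 (squeeze_zero (fun _ => dist_nonneg)
        (fun n => (fl _ n).trans (min_le_right _ _)) ty)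
    · exact (show q 4 = 0 from hq).symm ▸ ty
  have cX := (dX.contDiffAt (hU.mem_nhds (φ0 q qW ▸ ((hφ 0 m).2.2 q qW).1))).continuousAt
  refine tendsto_nhds_unique (((continuous_apply 3).continuousAt.comp cX).tendsto.comp tx)
    (tendsto_const_nhds.congr' ?_)
  filter_upwards [tx.eventually (hW.mem_nhds qW)] with n hn
  have := path hT (γ := fun t => φ t (x n)) hδ
    (fun t ht => ((hφ t ht).2.2 _ hn).2.continuousAt.continuousWithinAt)
    (fun t ht => deg dg (hφ t ht).1 ((hφ t ht).2.1.symm ▸ hn) ((zs _).2 (.inr ⟨n, rfl, _, rfl⟩)))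
    (by rw [φ0 _ hn]; exact (p n).ne') ((hφ 0 m).2.2 _ hn).2
  rw [φ0 _ hn] at this
  exact this.1.symm

end Pool.Agent.Results.MP_430a41_an.NoSpan
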