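import Mathlib
import Pool.Agent.H.MP_430a41_an.B

open Set Filter Topology Metric

namespace Pool.Agent.Results.MP_430a41_an.NotSub

open H.MP_430a41_an

lemma cantor {ε : ℕ → ℝ} (e0 : ∀ n, 0 < ε n) (e3 : ∀ n, ε (n + 1) ≤ ε n / 3)
    (dv : ∀ n, ∀ j ≤ n, ∃ k : ℤ, ε j = k * ε n) : ∃ a : Set ℕ → ℝ, Function.Injective a ∧
      ∀ b n, ∃ k : ℤ, |k * ε n - a b| ≤ 2 * ε (n + 1) := by
  classical
  have ge : ∀ n j, ε (j + n) ≤ ε n * (1 / 3) ^ j := fun n j => by
    induction j with
    | zero => simp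
    | succ j ih => rw [Nat.add_right_comm, pow_succ]; linarith [e3 (j + n)]
  have gs : ∀ c : ℝ, HasSum (fun j : ℕ => c * (1 / 3) ^ j) (c * (1 - 1 / 3)⁻¹) := fun c =>
    (hasSum_geometric_of_lt_one (by norm_num) (by norm_num)).mul_left c
  set t : Set ℕ → ℕ → ℝ := fun b j => if j ∈ b then ε j else 0 with ht
  have t0 : ∀ b j, 0 ≤ t b j ∧ t b j ≤ ε j := fun b j => by
    simp only [ht]; split_ifs <;> simp [(e0 j).le]
  have sm : ∀ b n, Summable fun j => t b (j + n) := fun b n =>
    (gs (ε n)).summable.of_nonneg_of_le (fun j => (t0 b _).1) fun j => (t0 b _).2.trans (ge n j)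
  have tl : ∀ b n, ∃ r, 0 ≤ r ∧ r ≤ 3 / 2 * ε n ∧ ∑' j, t b j = ∑ j ∈ Finset.range n, t b j + r :=
    fun b n => ⟨∑' j, t b (j + n), tsum_nonneg fun j => (t0 b _).1, by
      have := (sm b n).tsum_le_tsum (fun j => (t0 b _).2.trans (ge n j)) (gs (ε n)).summable
      rw [(gs _).tsum_eq] at this
      linarith, ((sm b 0).sum_add_tsum_nat_add n).symm⟩
  refine ⟨fun b => ∑' j, t b j, fun b c h => by_contra fun hn => ?_, fun b n => ?_⟩
  · have ex : ∃ j, ¬(j ∈ b ↔ j ∈ c) := not_forall.1 fun h => hn (Set.ext h)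
    obtain ⟨r, r0, r1, hr⟩ := tl b (Nat.find ex + 1)
    obtain ⟨u, u0, u1, hu⟩ := tl c (Nat.find ex + 1)
    have e : ∑ j ∈ Finset.range (Nat.find ex), t b j = ∑ j ∈ Finset.range (Nat.find ex), t c j :=
      Finset.sum_congr rfl fun j hj => by
        simp only [ht, not_not.1 (Nat.find_min ex (Finset.mem_range.1 hj))]
    simp only [hr, hu, Finset.sum_range_succ, e] at h
    have s := Nat.find_spec ex
    have := e3 (Nat.find ex)
    have := e0 (Nat.find ex)
    by_cases h1 : Nat.find ex ∈ b <;> by_cases h2 : Nat.find ex ∈ c <;>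
      simp only [ht, h1, h2, if_true, if_false, not_true] at h s <;> linarith
  · obtain ⟨r, r0, r1, hr⟩ := tl b (n + 1)
    have : ∀ j, ∃ k : ℤ, j ≤ n → t b j = k * ε n := fun j => by
      by_cases hj : j ≤ n
      · by_cases h : j ∈ b
        · obtain ⟨k, hk⟩ := dv n j hj
          exact ⟨k, fun _ => by simp [ht, h, hk]⟩
        · exact ⟨0, fun _ => by simp [ht, h]⟩
      · exact ⟨0, fun h => (hj h).elim⟩
    choose k hk using this
    refine ⟨∑ j ∈ Finset.range (n + 1), k j, ?_⟩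
    simp only [hr]
    rw [Finset.sum_congr rfl fun j hj => hk j (Nat.lt_succ_iff.1 (Finset.mem_range.1 hj)),
      ← Finset.sum_mul, Int.cast_sum, abs_le]
    constructor <;> linarith [e0 (n + 1)]

lemma baire {ε : ℕ → ℝ} (e0 : ∀ n, 0 < ε n) (te : Tendsto ε atTop (𝓝 0)) :
    Dense {z : ℝ | ¬∃ K : ℝ, ∀ᶠ n in atTop, ∃ k : ℤ, |z - k * ε n| ≤ K * (ε n / (n + 1))} := by
  have := dense_iInter_of_isOpen (f := fun N : ℕ => ⋃ n ≥ N, ⋃ k : ℤ,
    ball ((k + 1 / 2) * ε n) (ε n / 4))
    (fun N => isOpen_biUnion fun _ _ => isOpen_iUnion fun _ => isOpen_ball) fun N =>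
      Metric.dense_iff.2 fun x r hr => by
        obtain ⟨n, h1, h2⟩ := ((eventually_ge_atTop N).and (te.eventually (gt_mem_nhds hr))).exists
        refine ⟨(⌊x / ε n⌋ + 1 / 2) * ε n, ?_, mem_iUnion₂.2 ⟨n, h1, mem_iUnion.2
          ⟨_, mem_ball_self (by linarith [e0 n])⟩⟩⟩
        have a := Int.floor_le (x / ε n)
        have b := Int.lt_floor_add_one (x / ε n)
        rw [le_div_iff₀ (e0 n)] at a
        rw [div_lt_iff₀ (e0 n)] at b
        rw [mem_ball, Real.dist_eq, abs_lt]
        constructor <;> linarith [e0 n]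
  refine this.mono fun z hz ⟨K, hK⟩ => ?_
  obtain ⟨N, hN⟩ := eventually_atTop.1 (hK.and
    (tendsto_natCast_atTop_atTop.eventually (eventually_ge_atTop (4 * K))))
  obtain ⟨n, hn, h⟩ := mem_iUnion₂.1 (mem_iInter.1 hz N)
  obtain ⟨k, h⟩ := mem_iUnion.1 h
  obtain ⟨⟨j, hj⟩, h4⟩ := hN n hn
  have p := e0 n
  have : K * (ε n / (n + 1)) ≤ ε n / 4 := by
    rw [← mul_div_assoc, div_le_div_iff₀ (by positivity) (by norm_num)]
    nlinarith
  rw [mem_ball, Real.dist_eq, abs_lt] at h
  rw [abs_le] at hj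
  rcases le_or_gt j k with l | l
  · have : (j : ℝ) ≤ k := mod_cast l
    nlinarith
  · have : (k : ℝ) + 1 ≤ j := mod_cast l
    nlinarith

theorem result : ∃ H : (Fin 5 → ℝ) → Submodule ℂ (Fin 5 → ℂ), IsCR 1 H ∧
    ∀ (S : Type) [TopologicalSpace S] [SecondCountableTopology S] [LocallyConnectedSpace S]
      (ι : S → Fin 5 → ℝ), Continuous ι → range ι ≠ O H 0 := by
  obtain ⟨cc, c0, hc⟩ := exg
  have : ∀ (n : ℕ) (t : ℝ), ∃ m : ℕ, 0 < t → 3 ≤ m ∧ t / m ≤ cc n (t / (n + 1)) / 2 ∧
      t / m ≤ t / (n + 1) := fun n t => by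
    by_cases ht : 0 < t
    · have l := tendsto_const_div_atTop_nhds_zero_nat t
      obtain ⟨m, h⟩ := ((eventually_ge_atTop 3).and ((l.eventually (ge_mem_nhds (half_pos
        (c0 n (t / (n + 1)) (by positivity))))).and (l.eventually (ge_mem_nhds
          (show 0 < t / (n + 1) by positivity))))).exists
      exact ⟨m, fun _ => h⟩
    · exact ⟨0, fun h => (ht h).elim⟩
  choose m hm using this
  set ε : ℕ → ℝ := Nat.rec 1 fun n t => t / m n t
  have es : ∀ n, ε (n + 1) = ε n / m n (ε n) := fun _ => rfl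
  have e0 : ∀ n, 0 < ε n := fun n => by
    induction n with
    | zero => exact one_pos
    | succ n ih => exact div_pos ih (by have := (hm n _ ih).1; positivity)
  have e3 : ∀ n, ε (n + 1) ≤ ε n / 3 := fun n =>
    div_le_div_of_nonneg_left (e0 n).le (by norm_num) (mod_cast (hm n _ (e0 n)).1)
  have dv : ∀ n, ∀ j ≤ n, ∃ k : ℤ, ε j = k * ε n := fun n j hj => by
    induction hj with
    | refl => exact ⟨1, by simp⟩
    | @step n _ ih =>
      obtain ⟨k, hk⟩ := ih
      have := (hm n _ (e0 n)).1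
      refine ⟨k * m n (ε n), ?_⟩
      rw [hk, es]
      push_cast
      field_simp
  have te : Tendsto ε atTop (𝓝 0) := by
    refine squeeze_zero (fun n => (e0 n).le) (fun n => ?_)
      (tendsto_pow_atTop_nhds_zero_of_lt_one (r := (1 / 3 : ℝ)) (by norm_num) (by norm_num))
    induction n with
    | zero => exact le_rfl
    | succ n ih => rw [pow_succ]; linarith [e3 n]
  set y : ℕ → ℝ := fun n => ε n / (n + 1) with hy
  have y0 : ∀ n, 0 < y n := fun n => by have := e0 n; positivity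
  have y1 : ∀ n, y (n + 1) * (n + 2) ≤ y n := fun n => by
    refine le_of_eq_of_le ?_ (hm n _ (e0 n)).2.2
    simp only [hy, ← es]
    push_cast
    field_simp
    ring
  have y2 : ∀ n, y (n + 1) ≤ y n / 2 := fun n => by
    nlinarith [y1 n, y0 (n + 1), Nat.cast_nonneg (α := ℝ) n]
  have an : Antitone y := antitone_nat_of_succ_le fun n => by linarith [y2 n, y0 n]
  have ty : Tendsto y atTop (𝓝 0) := squeeze_zero (fun n => (y0 n).le)
    (fun n => div_le_self (e0 n).le (by simp)) te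
  obtain ⟨g, dg, zs, hT, sh⟩ := hc y ε y0 y2 ty e0
  have up : ∀ q ∈ O (HH g) 0, ∃ K : ℝ, ∀ᶠ n in atTop, ∃ k : ℤ, |q 3 - k * ε n| ≤ K * y n := by
    rintro _ ⟨h, c, hp, rfl⟩
    obtain ⟨K, t, ht, lK⟩ := ((c.at hp).of_le (m := 1) (by norm_cast)).exists_lipschitzOnWith
    obtain ⟨K', t', ht', lK'⟩ :=
      ((c.symm.at (h.map_source hp)).of_le (m := 1) (by norm_cast)).exists_lipschitzOnWith
    set p : ℕ → E := fun n => Pi.single 4 (y n) with hp'
    have np : ∀ n, ‖p n‖ = y n := fun n => by simp [hp', Pi.norm_single, abs_of_pos (y0 n)]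
    have tp : Tendsto p atTop (𝓝 0) := tendsto_zero_iff_norm_tendsto_zero.2 (by simpa only [np])
    have th := (c.at hp).continuousAt.tendsto.comp tp
    have tw := th.update 4 (tendsto_const_nhds (x := (0 : ℝ)))
    rw [Function.update_eq_self_iff.2 (axis dg hT c hp rfl).symm] at tw
    refine ⟨K, ?_⟩
    filter_upwards [tp.eventually ht, tp.eventually (h.open_source.mem_nhds hp), th.eventually ht',
      tw.eventually ht', tw.eventually (h.open_target.mem_nhds (h.map_source hp)),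
      tendsto_natCast_atTop_atTop.eventually (eventually_ge_atTop (K' : ℝ))] with n a1 a2 a3 a4 a5 a6
    have b1 := axis dg hT c.symm a5 (by simp)
    have b2 := (dist_le_pi_dist _ _ 4).trans (lK'.dist_le_mul _ a3 _ a4)
    have b3 : dist (h (p n)) (Function.update (h (p n)) 4 0) ≤ |h (p n) 4| :=
      (dist_pi_le_iff (abs_nonneg _)).2 fun i => by
        by_cases hi : i = 4
        · simp [hi]
        · simp [hi]
    rw [b1, Function.comp_apply, h.left_inv a2] at b2
    have b4 : y n ≤ K' * |h (p n) 4| := by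
      have := b2.trans (mul_le_mul_of_nonneg_left b3 K'.2)
      simpa [hp', abs_of_pos (y0 n)] using this
    have b5 := (dist_le_pi_dist _ _ 3).trans (lK.dist_le_mul _ (mem_of_mem_nhds ht) _ a1)
    rw [dist_zero_left, np, Real.dist_eq] at b5
    rcases (zs _).1 (deg dg c a2 ((zs _).2 (.inr ⟨n, by simp [s, hp'], 0, by simp [s, hp']⟩))) with
      e | ⟨j, e, k, e'⟩ <;> simp only [s] at e
    · rw [e] at b4
      simp [(y0 n).not_ge] at b4
    · rw [e, abs_of_pos (y0 j)] at b4
      obtain ⟨l, hl⟩ := dv n j (not_lt.1 fun hj => by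
        have := an (Nat.succ_le_of_lt hj)
        nlinarith [y1 n, y0 j, y0 (n + 1), K'.2])
      simp only [s] at e'
      exact ⟨k * l, by rw [Int.cast_mul, mul_assoc, ← hl, ← e']; exact b5⟩
  refine ⟨HH g, isCR dg, fun S _ _ _ ι hι e => ?_⟩
  obtain ⟨a, ia, ha⟩ := cantor e0 e3 dv
  have td : IsTotallyDisconnected (range fun x => ι x 3) :=
    isTotallyDisconnected_iff_lt.2 fun u _ v _ h => by
      obtain ⟨z, h1, h2⟩ := (baire e0 te).exists_between h
      exact ⟨z, fun ⟨x, hx⟩ => h1 (hx ▸ up _ (e ▸ mem_range_self x)), h2⟩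
  have cf : Continuous fun x => ι x 3 := (continuous_apply 3).comp hι
  have ct : (range fun x => ι x 3).Countable := Set.PairwiseDisjoint.countable_of_isOpen
    (s := fun r => (fun x => ι x 3) ⁻¹' {r})
    (fun r _ t _ h => (disjoint_singleton.2 h).preimage _)
    (fun r _ => isOpen_iff_mem_nhds.2 fun x hx => mem_of_superset
      (isOpen_connectedComponent.mem_nhds mem_connectedComponent) fun w hw => (td _
        (image_subset_range _ _) (isPreconnected_connectedComponent.image _ cf.continuousOn)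
        (mem_image_of_mem _ hw) (mem_image_of_mem _ mem_connectedComponent)).trans hx)
    fun r h => h
  have sub : range a ⊆ range fun x => ι x 3 := by
    rintro _ ⟨b, rfl⟩
    choose k hk using ha b
    obtain ⟨x, hx⟩ := e ▸ sh (a b) k (fun n => (hk n).trans (by
      have := (hm n _ (e0 n)).2.1
      rw [← es] at this
      linarith)) 0 0 0
    exact ⟨x, by simp [hx]⟩
  have := (ct.mono sub).preimage_of_injOn ia.injOn
  rw [preimage_range] at this
  have := countable_univ_iff.1 this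
  obtain ⟨f, hf⟩ := exists_surjective_nat (Set ℕ)
  exact Function.cantor_surjective f hf

end Pool.Agent.Results.MP_430a41_an.NotSub
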